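import Mathlib

set_option autoImplicit false

namespace Pool.Agent.Lib.MP_8b7544_co

open Finset

/-- Rooting a finite tree at `v`: parent function and depth. -/
theorem exists_par {V : Type} [Fintype V] (G : SimpleGraph V) (hG : G.IsTree) (v : V) :
    ∃ par : V → V, ∃ d : V → ℕ,
      (∀ x, x ≠ v → G.Adj x (par x) ∧ d (par x) < d x) ∧
      (∀ a b, G.Adj a b → (a ≠ v ∧ par a = b) ∨ (b ≠ v ∧ par b = a)) := by
  classical
  have h1 : ∀ x, ∃ y, x ≠ v → G.Adj x y ∧ G.dist y v < G.dist x v := by
    intro x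
    by_cases hx : x = v
    · exact ⟨x, fun h => absurd hx h⟩
    obtain ⟨p, hp⟩ := hG.1.exists_walk_length_eq_dist x v
    cases p with
    | nil => exact absurd rfl hx
    | cons h q =>
      rename_i y
      refine ⟨y, fun _ => ⟨h, ?_⟩⟩
      have := SimpleGraph.dist_le q
      rw [SimpleGraph.Walk.length_cons] at hp
      omega
  choose par hpar using h1
  refine ⟨par, fun x => G.dist x v, hpar, ?_⟩
  have hpar' : ∀ x : {x : V // x ≠ v}, s(x.1, par x.1) ∈ G.edgeSet := by
    intro x
    rw [SimpleGraph.mem_edgeSet]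
    exact (hpar x.1 x.2).1
  let φ : {x : V // x ≠ v} → G.edgeSet := fun x => ⟨s(x.1, par x.1), hpar' x⟩
  have hinj : Function.Injective φ := by
    intro x y hxy
    have h := congrArg Subtype.val hxy
    simp only [φ] at h
    rw [Sym2.eq_iff] at h
    rcases h with ⟨h, _⟩ | ⟨h2, h3⟩
    · exact Subtype.ext h
    · exfalso
      have hx := (hpar x.1 x.2).2
      have hy := (hpar y.1 y.2).2
      rw [h3] at hx
      rw [← h2] at hy
      omega
  have hcard : Fintype.card {x : V // x ≠ v} = Fintype.card G.edgeSet := by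
    have h2 := hG.card_edgeFinset
    rw [SimpleGraph.edgeFinset_card] at h2
    rw [Fintype.card_subtype_compl, Fintype.card_subtype_eq]
    omega
  have hbij : Function.Bijective φ :=
    (Fintype.bijective_iff_injective_and_card φ).2 ⟨hinj, hcard⟩
  intro a b hab
  obtain ⟨x, hx⟩ := hbij.2 ⟨s(a, b), (SimpleGraph.mem_edgeSet G).2 hab⟩
  have h := congrArg Subtype.val hx
  simp only [φ] at h
  rw [Sym2.eq_iff] at h
  rcases h with ⟨h1, h2⟩ | ⟨h1, h2⟩
  · left
    rw [← h1]
    exact ⟨x.2, h2⟩
  · right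
    rw [← h1]
    exact ⟨x.2, h2⟩

/-- The greedy chain of labels. -/
theorem chain {V : Type} [DecidableEq V] (par : V → V) (d : V → ℕ) (C s K A : ℤ)
    (hC : 1 ≤ C) (hs : 0 ≤ s) (hA : 0 ≤ A) (b β : V → ℤ)
    (hb : ∀ x, b x = K * β x) (hβ : ∀ x, 0 ≤ β x) (hb0 : ∀ x, 0 ≤ b x) (hbA : ∀ x, b x ≤ A) :
    ∀ (m : ℕ) (S : Finset V), S.card = m → (∀ x ∈ S, d (par x) < d x) →
      ∃ (g : V → ℤ) (Z : Finset ℤ) (Y : ℤ),
        (∀ x, x ∉ S → g x = b x) ∧
        (∀ x ∈ S, ∃ z ∈ Z, g x = z + s) ∧
        Z.card = m + 1 ∧ Y ∈ Z ∧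
        (∀ z ∈ Z, C ≤ z ∧ z ≤ Y) ∧
        (∀ z ∈ Z, z = Y ∨ ∃ x ∈ S, g x = z + s) ∧
        (∀ z ∈ Z, z = C ∨ ∃ x ∈ S, C + (g x - s) + g (par x) = z) ∧
        (∀ z ∈ Z, ∃ α γ : ℤ, z = α + K * γ ∧ 0 ≤ γ ∧ 1 ≤ α ∧
          α + C + s ≤ 2 ^ m * (2 * C + s)) ∧
        (∀ z ∈ Z, z + C + s ≤ 2 ^ m * (2 * C + s + A)) ∧
        (∀ x ∈ S, par x ∉ S → C + b (par x) ≤ Y) := by
  intro m
  induction m with
  | zero =>
    intro S hS _
    rw [Finset.card_eq_zero] at hS
    subst hS
    refine ⟨b, {C}, C, fun _ _ => rfl, by simp, by simp, by simp, by simp, by simp, by simp,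
      ?_, ?_, by simp⟩
    · intro z hz
      rw [Finset.mem_singleton] at hz
      exact ⟨C, 0, by rw [hz]; ring, le_refl _, hC, by simp; linarith⟩
    · intro z hz
      rw [Finset.mem_singleton] at hz
      rw [hz]
      simp
      linarith
  | succ m ih =>
    intro S hS hd
    have hne : S.Nonempty := by
      rw [← Finset.card_pos]; omega
    obtain ⟨x0, hx0, hmax⟩ := Finset.exists_max_image S d hne
    have hcard : (S.erase x0).card = m := by
      rw [Finset.card_erase_of_mem hx0, hS]; rfl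
    obtain ⟨g, Z, Y, h1, h2, h3, h4, h5, h6, h7, h8, h9, h10⟩ := ih (S.erase x0) hcard
      (fun x hx => hd x (Finset.mem_of_mem_erase hx))
    have hpx0 : par x0 ≠ x0 := by
      intro h
      have := hd x0 hx0
      rw [h] at this
      exact lt_irrefl _ this
    have hpx : ∀ x ∈ S, par x ≠ x0 := by
      intro x hx h
      have h11 := hd x hx
      have h12 := hmax x hx
      rw [h] at h11
      omega
    -- value of g at the parent of x0
    have hg0 : 0 ≤ g (par x0) := by
      by_cases hp : par x0 ∈ S.erase x0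
      · obtain ⟨z, hz, hz2⟩ := h2 _ hp
        have := (h5 z hz).1
        rw [hz2]; linarith
      · rw [h1 _ hp]; exact hb0 _
    have hgα : ∃ α γ : ℤ, g (par x0) = α + K * γ ∧ 0 ≤ γ ∧ 0 ≤ α ∧
        α + C ≤ 2 ^ m * (2 * C + s) := by
      by_cases hp : par x0 ∈ S.erase x0
      · obtain ⟨z, hz, hz2⟩ := h2 _ hp
        obtain ⟨α, γ, e1, e2, e3, e4⟩ := h8 z hz
        exact ⟨α + s, γ, by rw [hz2, e1]; ring, e2, by linarith, by linarith⟩
      · refine ⟨0, β (par x0), by rw [h1 _ hp, hb]; ring, hβ _, le_refl _, ?_⟩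
        have h20 : (1 : ℤ) ≤ 2 ^ m := one_le_pow₀ (by norm_num)
        nlinarith
    have hgA : g (par x0) + C ≤ 2 ^ m * (2 * C + s + A) := by
      by_cases hp : par x0 ∈ S.erase x0
      · obtain ⟨z, hz, hz2⟩ := h2 _ hp
        have := h9 z hz
        rw [hz2]; linarith
      · rw [h1 _ hp]
        have h20 : (1 : ℤ) ≤ 2 ^ m := one_le_pow₀ (by norm_num)
        have := hbA (par x0)
        nlinarith
    set Y' := Y + C + g (par x0) with hY'
    have hY'Y : Y < Y' := by linarith
    have hY'Z : Y' ∉ Z := by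
      intro h
      have := (h5 _ h).2
      linarith
    have hYC := (h5 Y h4).1
    refine ⟨Function.update g x0 (Y + s), insert Y' Z, Y', ?_, ?_, ?_, ?_, ?_, ?_, ?_, ?_, ?_, ?_⟩
    · intro x hx
      have : x ≠ x0 := by rintro rfl; exact hx hx0
      rw [Function.update_of_ne this]
      exact h1 x (fun h => hx (Finset.mem_of_mem_erase h))
    · intro x hx
      by_cases h : x = x0
      · subst h
        exact ⟨Y, Finset.mem_insert_of_mem h4, by rw [Function.update_self]⟩
      · obtain ⟨z, hz, hz2⟩ := h2 x (Finset.mem_erase.2 ⟨h, hx⟩)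
        exact ⟨z, Finset.mem_insert_of_mem hz, by rw [Function.update_of_ne h]; exact hz2⟩
    · rw [Finset.card_insert_of_notMem hY'Z, h3]
    · exact Finset.mem_insert_self _ _
    · intro z hz
      rcases Finset.mem_insert.1 hz with rfl | hz
      · exact ⟨by linarith, le_refl _⟩
      · have := h5 z hz
        exact ⟨this.1, by linarith [this.2]⟩
    · intro z hz
      rcases Finset.mem_insert.1 hz with rfl | hz
      · left; rfl
      · right
        rcases h6 z hz with rfl | ⟨x, hx, hx2⟩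
        · exact ⟨x0, hx0, by rw [Function.update_self]⟩
        · exact ⟨x, Finset.mem_of_mem_erase hx, by
            rw [Function.update_of_ne (Finset.ne_of_mem_erase hx)]; exact hx2⟩
    · intro z hz
      rcases Finset.mem_insert.1 hz with rfl | hz
      · right
        refine ⟨x0, hx0, ?_⟩
        rw [Function.update_self, Function.update_of_ne hpx0, hY']
        ring
      · rcases h7 z hz with rfl | ⟨x, hx, hx2⟩
        · left; rfl
        · right
          refine ⟨x, Finset.mem_of_mem_erase hx, ?_⟩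
          rw [Function.update_of_ne (Finset.ne_of_mem_erase hx),
            Function.update_of_ne (hpx x (Finset.mem_of_mem_erase hx))]
          exact hx2
    · intro z hz
      rcases Finset.mem_insert.1 hz with rfl | hz
      · obtain ⟨α, γ, e1, e2, e3, e4⟩ := h8 Y h4
        obtain ⟨α', γ', f1, f2, f3, f4⟩ := hgα
        refine ⟨α + C + α', γ + γ', ?_, by linarith, by linarith, ?_⟩
        · rw [hY', f1]; rw [e1]; ring
        · rw [pow_succ]; linarith
      · obtain ⟨α, γ, e1, e2, e3, e4⟩ := h8 z hz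
        refine ⟨α, γ, e1, e2, e3, ?_⟩
        have h20 : (1 : ℤ) ≤ 2 ^ m := one_le_pow₀ (by norm_num)
        have h21 : (0 : ℤ) ≤ 2 ^ m * (2 * C + s) := by positivity
        rw [pow_succ]; linarith
    · intro z hz
      rcases Finset.mem_insert.1 hz with rfl | hz
      · have := h9 Y h4
        rw [hY', pow_succ]; linarith
      · have := h9 z hz
        have h21 : (0 : ℤ) ≤ 2 ^ m * (2 * C + s + A) := by positivity
        rw [pow_succ]; linarith
    · intro x hx hpS
      by_cases h : x = x0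
      · subst h
        have hp : par x ∉ S.erase x := fun h => hpS (Finset.mem_of_mem_erase h)
        rw [hY', h1 _ hp]
        linarith
      · have := h10 x (Finset.mem_erase.2 ⟨h, hx⟩) (fun h => hpS (Finset.mem_of_mem_erase h))
        linarith

end Pool.Agent.Lib.MP_8b7544_co
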