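import Mathlib

set_option autoImplicit false

namespace Pool.Agent.Lib.MP_8b7544_co

open Finset

/-- The greedy chain of labels, as linear forms in two variables: a pair `(p, q)` stands for
`p * T + q * J`. -/
theorem forms {V : Type} [DecidableEq V] (par : V → V) (d : V → ℕ) (β : V → ℤ)
    (hβ : ∀ x, 0 ≤ β x) :
    ∀ (m : ℕ) (S : Finset V), S.card = m → (∀ x ∈ S, d (par x) < d x) →
      (∀ x ∈ S, par x ∉ S → 1 ≤ β (par x)) →
      ∃ (g : V → ℤ × ℤ) (Z : Finset (ℤ × ℤ)) (Y : ℤ × ℤ),
        (∀ x, x ∉ S → g x = (0, β x)) ∧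
        (∀ x ∈ S, g x ∈ Z) ∧
        Z.card = m + 1 ∧ Y ∈ Z ∧
        (∀ z ∈ Z, 1 ≤ z.1 ∧ 0 ≤ z.2 ∧ z.1 ≤ Y.1 ∧ z.2 ≤ Y.2) ∧
        (∀ z ∈ Z, ∀ z' ∈ Z, z = z' ∨ (z.1 ≤ z'.1 ∧ z.2 ≤ z'.2) ∨ (z'.1 ≤ z.1 ∧ z'.2 ≤ z.2)) ∧
        (∀ z ∈ Z, z = Y ∨ ∃ x ∈ S, g x = z) ∧
        (∀ z ∈ Z, z = (1, 0) ∨ ∃ x ∈ S, g x + g (par x) = z) ∧
        (∀ x ∈ S, par x ∉ S → β (par x) ≤ Y.2) := by
  intro m
  induction m with
  | zero =>
    intro S hS _ _
    rw [Finset.card_eq_zero] at hS
    subst hS
    refine ⟨fun x => (0, β x), {(1, 0)}, (1, 0), fun _ _ => rfl, by simp, by simp, by simp,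
      by simp, by simp, by simp, by simp, by simp⟩
  | succ m ih =>
    intro S hS hd hβS
    have hne : S.Nonempty := by
      rw [← Finset.card_pos]; omega
    obtain ⟨x0, hx0, hmax⟩ := Finset.exists_max_image S d hne
    have hcard : (S.erase x0).card = m := by
      rw [Finset.card_erase_of_mem hx0, hS]; rfl
    have hpx0 : par x0 ≠ x0 := by
      intro h
      have := hd x0 hx0
      rw [h] at this
      exact lt_irrefl _ this
    have hpx : ∀ x ∈ S, par x ≠ x0 := by
      intro x hx h
      have h11 := hd x hx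
      have h12 := hmax x hx
      rw [h] at h11
      omega
    obtain ⟨g, Z, Y, h1, h2, h3, h4, h5, h5', h6, h7, h8⟩ := ih (S.erase x0) hcard
      (fun x hx => hd x (Finset.mem_of_mem_erase hx))
      (by
        intro x hx hx2
        refine hβS x (Finset.mem_of_mem_erase hx) ?_
        intro h
        exact hx2 (Finset.mem_erase.2 ⟨hpx x (Finset.mem_of_mem_erase hx), h⟩))
    have hg0 : 0 ≤ (g (par x0)).1 ∧ 0 ≤ (g (par x0)).2 ∧
        (1 ≤ (g (par x0)).1 ∨ 1 ≤ (g (par x0)).2) := by
      by_cases hp : par x0 ∈ S.erase x0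
      · have := h5 _ (h2 _ hp)
        exact ⟨by linarith [this.1], this.2.1, Or.inl this.1⟩
      · rw [h1 _ hp]
        exact ⟨le_refl _, hβ _, Or.inr (hβS x0 hx0 (fun h => hp (Finset.mem_erase.2 ⟨hpx0, h⟩)))⟩
    set Y' := Y + g (par x0) with hY'
    have hY'1 : Y'.1 = Y.1 + (g (par x0)).1 := rfl
    have hY'2 : Y'.2 = Y.2 + (g (par x0)).2 := rfl
    have hY'Z : Y' ∉ Z := by
      intro h
      have := h5 _ h
      rcases hg0.2.2 with h | h <;> linarith [this.1, this.2.1, this.2.2.1, this.2.2.2]
    refine ⟨Function.update g x0 Y, insert Y' Z, Y', ?_, ?_, ?_, ?_, ?_, ?_, ?_, ?_, ?_⟩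
    · intro x hx
      have : x ≠ x0 := by rintro rfl; exact hx hx0
      rw [Function.update_of_ne this]
      exact h1 x (fun h => hx (Finset.mem_of_mem_erase h))
    · intro x hx
      by_cases h : x = x0
      · subst h
        rw [Function.update_self]
        exact Finset.mem_insert_of_mem h4
      · rw [Function.update_of_ne h]
        exact Finset.mem_insert_of_mem (h2 x (Finset.mem_erase.2 ⟨h, hx⟩))
    · rw [Finset.card_insert_of_notMem hY'Z, h3]
    · exact Finset.mem_insert_self _ _
    · intro z hz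
      have hY := h5 Y h4
      rcases Finset.mem_insert.1 hz with rfl | hz
      · exact ⟨by linarith [hY.1, hg0.1], by linarith [hY.2.1, hg0.2.1], le_refl _, le_refl _⟩
      · have := h5 z hz
        exact ⟨this.1, this.2.1, by linarith [this.2.2.1, hg0.1], by linarith [this.2.2.2, hg0.2.1]⟩
    · intro z hz z' hz'
      rcases Finset.mem_insert.1 hz with rfl | hz
      · rcases Finset.mem_insert.1 hz' with rfl | hz'
        · left; rfl
        · right; right
          have := h5 z' hz'
          exact ⟨by linarith [this.2.2.1, hg0.1], by linarith [this.2.2.2, hg0.2.1]⟩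
      · rcases Finset.mem_insert.1 hz' with rfl | hz'
        · right; left
          have := h5 z hz
          exact ⟨by linarith [this.2.2.1, hg0.1], by linarith [this.2.2.2, hg0.2.1]⟩
        · exact h5' z hz z' hz'
    · intro z hz
      rcases Finset.mem_insert.1 hz with rfl | hz
      · left; rfl
      · right
        rcases h6 z hz with rfl | ⟨x, hx, hx2⟩
        · exact ⟨x0, hx0, by rw [Function.update_self]⟩
        · exact ⟨x, Finset.mem_of_mem_erase hx, by
            rw [Function.update_of_ne (Finset.ne_of_mem_erase hx)]; exact hx2⟩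
    · intro z hz
      rcases Finset.mem_insert.1 hz with rfl | hz
      · right
        refine ⟨x0, hx0, ?_⟩
        rw [Function.update_self, Function.update_of_ne hpx0, hY']
      · rcases h7 z hz with rfl | ⟨x, hx, hx2⟩
        · left; rfl
        · right
          refine ⟨x, Finset.mem_of_mem_erase hx, ?_⟩
          rw [Function.update_of_ne (Finset.ne_of_mem_erase hx),
            Function.update_of_ne (hpx x (Finset.mem_of_mem_erase hx))]
          exact hx2
    · intro x hx hpS
      by_cases h : x = x0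
      · subst h
        have hp : par x ∉ S.erase x := fun h => hpS (Finset.mem_of_mem_erase h)
        rw [hY'2, h1 _ hp]
        have := (h5 Y h4).2.1
        simp only
        linarith
      · have := h8 x (Finset.mem_erase.2 ⟨h, hx⟩) (fun h => hpS (Finset.mem_of_mem_erase h))
        linarith [hg0.2.1]

end Pool.Agent.Lib.MP_8b7544_co
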