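import Pool.Agent.Lib.MP_8b7544_co.Surj
import Pool.Agent.Lib.MP_8b7544_co.Chain
import Pool.Agent.Lib.MP_8b7544_co.Forms

set_option autoImplicit false

namespace Pool.Agent.Lib.MP_8b7544_co

open Finset

theorem exists_fill (P N : ℕ) (U : Finset ℤ) (hU : U ⊆ Icc 1 (P : ℤ)) (hc : U.card + N = P) :
    ∃ f : Fin N → ℤ, ∀ t : ℤ, 1 ≤ t → t ≤ P → t ∉ U → ∃ i, f i = t := by
  classical
  have h1 : (Icc 1 (P : ℤ) \ U).card = N := by
    rw [Finset.card_sdiff_of_subset hU, Int.card_Icc]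
    omega
  let e := (Icc 1 (P : ℤ) \ U).equivFinOfCardEq h1
  refine ⟨fun i => (e.symm i).1, fun t h2 h3 h4 => ?_⟩
  refine ⟨e ⟨t, Finset.mem_sdiff.2 ⟨Finset.mem_Icc.2 ⟨h2, h3⟩, h4⟩⟩, ?_⟩
  simp

/-- Labelling the new leaves by the remaining labels. -/
theorem assemble {V : Type} [Fintype V] (G : SimpleGraph V) (v : V) (N P : ℕ) (par : V → V)
    (hpar : ∀ a b, G.Adj a b → (a ≠ v ∧ par a = b) ∨ (b ≠ v ∧ par b = a))
    (hP : Fintype.card V - 1 + N = P) (s : ℤ) (g : V → ℤ) (U : Finset ℤ)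
    (hU : U ⊆ Icc 1 (P : ℤ)) (hc : U.card + N = P)
    (h1 : ∀ t ∈ U, (∃ x, g x = t) ∨ (∃ x y, G.Adj x y ∧ (g v + s) - g x - g y = t))
    (h2 : ∀ t : ℤ, -(P : ℤ) ≤ t → t ≤ 0 → (s - t ∈ U ∨ s - t < 1 ∨ (P : ℤ) < s - t) →
      (∃ x, g x = t) ∨ (∃ x y, G.Adj x y ∧ (g v + s) - g x - g y = t)) :
    EdgeMagic (attach G v N) := by
  classical
  obtain ⟨f, hf⟩ := exists_fill P N U hU hc
  let g' : V ⊕ Fin N → ℤ := Sum.elim g f
  have lift : ∀ t, ((∃ x, g x = t) ∨ (∃ x y, G.Adj x y ∧ (g v + s) - g x - g y = t)) →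
      ((∃ x, g' x = t) ∨ (∃ x y, (attach G v N).Adj x y ∧ (g v + s) - g' x - g' y = t)) := by
    rintro t (⟨x, hx⟩ | ⟨x, y, hxy, h⟩)
    · left
      exact ⟨Sum.inl x, hx⟩
    · right
      exact ⟨Sum.inl x, Sum.inl y, Or.inl ⟨x, y, rfl, rfl, hxy⟩, h⟩
  refine edgeMagic_of_surj _ P ?_ g' (g v + s) ?_
  · have := card_attach_le G v N par hpar
    rw [hP] at this
    exact this
  intro t ht1 ht2
  rcases le_or_gt 1 t with ht | ht
  · by_cases hUt : t ∈ U
    · exact lift t (h1 t hUt)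
    · obtain ⟨i, hi⟩ := hf t ht ht2 hUt
      left
      exact ⟨Sum.inr i, hi⟩
  · by_cases hcase : (s - t ∈ U ∨ s - t < 1 ∨ (P : ℤ) < s - t)
    · exact lift t (h2 t ht1 (by linarith) hcase)
    · push Not at hcase
      obtain ⟨i, hi⟩ := hf (s - t) (by linarith [hcase.2.1]) hcase.2.2 hcase.1
      right
      refine ⟨Sum.inr i, Sum.inl v, Or.inr (Or.inr ⟨i, rfl, rfl⟩), ?_⟩
      have e1 : g' (Sum.inr i) = s - t := hi
      have e2 : g' (Sum.inl v) = g v := rfl
      rw [e1, e2]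
      ring

/-- A chain of states: `Z` is the set of states, from `lo` to `hi`; every state except the last is
`τ x` for some `x ∈ S`, every state except the first is `τ x + τ (par x)` for some `x ∈ S`. -/
def IsChain {V : Type} (par : V → V) (τ : V → ℤ) (S : Finset V) (Z : Finset ℤ) (lo hi : ℤ) :
    Prop :=
  Z.card = S.card + 1 ∧ lo ∈ Z ∧ hi ∈ Z ∧ (∀ z ∈ Z, lo ≤ z ∧ z ≤ hi) ∧
    (∀ z ∈ Z, z = hi ∨ ∃ x ∈ S, τ x = z) ∧ (∀ z ∈ Z, z = lo ∨ ∃ x ∈ S, τ x + τ (par x) = z)

theorem IsChain.append {V : Type} [DecidableEq V] {par : V → V} {τ : V → ℤ} {S₁ S₂ : Finset V}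
    {Z₁ Z₂ : Finset ℤ} {lo mid hi : ℤ} (h1 : IsChain par τ S₁ Z₁ lo mid)
    (h2 : IsChain par τ S₂ Z₂ mid hi) (hd : Disjoint S₁ S₂) :
    IsChain par τ (S₁ ∪ S₂) (Z₁ ∪ Z₂) lo hi := by
  obtain ⟨a1, a2, a3, a4, a5, a6⟩ := h1
  obtain ⟨b1, b2, b3, b4, b5, b6⟩ := h2
  have hmid : lo ≤ mid := (a4 mid a3).1
  have hmid2 : mid ≤ hi := (b4 mid b2).2
  have hinter : Z₁ ∩ Z₂ = {mid} := by
    ext z
    rw [mem_inter, mem_singleton]
    constructor
    · rintro ⟨h1, h2⟩
      exact le_antisymm (a4 z h1).2 (b4 z h2).1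
    · rintro rfl
      exact ⟨a3, b2⟩
  refine ⟨?_, mem_union_left _ a2, mem_union_right _ b3, ?_, ?_, ?_⟩
  · have := Finset.card_union_add_card_inter Z₁ Z₂
    rw [hinter, card_singleton] at this
    rw [Finset.card_union_of_disjoint hd]
    omega
  · intro z hz
    rcases mem_union.1 hz with hz | hz
    · exact ⟨(a4 z hz).1, (a4 z hz).2.trans hmid2⟩
    · exact ⟨hmid.trans (b4 z hz).1, (b4 z hz).2⟩
  · intro z hz
    rcases mem_union.1 hz with hz | hz
    · rcases a5 z hz with rfl | ⟨x, hx, h⟩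
      · rcases b5 z b2 with h | ⟨x, hx, h⟩
        · left; exact h
        · right; exact ⟨x, mem_union_right _ hx, h⟩
      · right; exact ⟨x, mem_union_left _ hx, h⟩
    · rcases b5 z hz with h | ⟨x, hx, h⟩
      · left; exact h
      · right; exact ⟨x, mem_union_right _ hx, h⟩
  · intro z hz
    rcases mem_union.1 hz with hz | hz
    · rcases a6 z hz with h | ⟨x, hx, h⟩
      · left; exact h
      · right; exact ⟨x, mem_union_left _ hx, h⟩
    · rcases b6 z hz with rfl | ⟨x, hx, h⟩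
      · rcases a6 z a3 with h | ⟨x, hx, h⟩
        · left; exact h
        · right; exact ⟨x, mem_union_left _ hx, h⟩
      · right; exact ⟨x, mem_union_right _ hx, h⟩

theorem IsChain.single {V : Type} [DecidableEq V] {par : V → V} {τ : V → ℤ} {x : V} {T : ℤ}
    (h1 : τ x = T) (h2 : 0 < τ (par x)) :
    IsChain par τ {x} {T, T + τ (par x)} T (T + τ (par x)) := by
  refine ⟨?_, by simp, by simp, ?_, ?_, ?_⟩
  · rw [Finset.card_pair (by linarith)]
    simp
  · intro z hz
    rw [mem_insert, mem_singleton] at hz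
    rcases hz with rfl | rfl <;> constructor <;> linarith
  · intro z hz
    rw [mem_insert, mem_singleton] at hz
    rcases hz with rfl | rfl
    · right; exact ⟨x, by simp, h1⟩
    · left; rfl
  · intro z hz
    rw [mem_insert, mem_singleton] at hz
    rcases hz with rfl | rfl
    · left; rfl
    · right; exact ⟨x, by simp, by rw [h1]⟩

theorem IsChain.nil {V : Type} {par : V → V} {τ : V → ℤ} {T : ℤ} :
    IsChain par τ (∅ : Finset V) {T} T T := by
  refine ⟨by simp, by simp, by simp, ?_, ?_, ?_⟩ <;> intro z hz <;> rw [mem_singleton] at hz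
  · subst hz; exact ⟨le_refl _, le_refl _⟩
  · left; exact hz
  · left; exact hz

/-- Final assembly, case `s = 1`. -/
theorem assemble_one {V : Type} [Fintype V] [DecidableEq V] (G : SimpleGraph V) (v : V) (N : ℕ)
    (par : V → V) (hpar1 : ∀ x, x ≠ v → G.Adj x (par x))
    (hpar : ∀ a b, G.Adj a b → (a ≠ v ∧ par a = b) ∨ (b ≠ v ∧ par b = a))
    (C : ℤ) (hC : 1 ≤ C) (τ : V → ℤ) (Z : Finset ℤ) (hi : ℤ)
    (hch : IsChain par τ (univ.filter (fun x => x ≠ v ∧ par x ≠ v)) Z (2 * C + 1) hi)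
    (hinj : ∀ x y, x ≠ v → par x = v → y ≠ v → par y = v → τ x = τ y → x = y)
    (hB : ∀ x, x ≠ v → par x = v → C + 1 ≤ τ x ∧ τ x < hi ∧ τ x ∉ Z)
    (hN : ((Fintype.card V - 1 + N : ℕ) : ℤ) = hi - C - 1) :
    EdgeMagic (attach G v N) := by
  set n := Fintype.card V with hn
  set S : Finset V := univ.filter (fun x => x ≠ v ∧ par x ≠ v) with hS
  let B : Finset V := univ.filter (fun x => x ≠ v ∧ par x = v)
  have hSmem : ∀ x, x ∈ S ↔ x ≠ v ∧ par x ≠ v := fun x => by simp [S]
  have hBmem : ∀ x, x ∈ B ↔ x ≠ v ∧ par x = v := fun x => by simp [B]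
  have hV : 0 < Fintype.card V := Fintype.card_pos_iff.2 ⟨v⟩
  have hSB : S.card + B.card + 1 = n := by
    have h1 : Disjoint S B := by
      rw [Finset.disjoint_left]
      intro x hx hx2
      exact ((hSmem x).1 hx).2 ((hBmem x).1 hx2).2
    have h2 : insert v (S ∪ B) = univ := by
      ext x
      simp only [mem_insert, mem_union, hSmem, hBmem, mem_univ, iff_true]
      tauto
    have h3 : v ∉ S ∪ B := by
      rw [mem_union, hSmem, hBmem]
      tauto
    have h4 := congrArg Finset.card h2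
    rw [Finset.card_insert_of_notMem h3, Finset.card_union_of_disjoint h1, Finset.card_univ] at h4
    exact h4
  obtain ⟨z1, z2, z3, z4, z5, z6⟩ := hch
  let P : ℕ := n - 1 + N
  have hP : (P : ℤ) = hi - C - 1 := hN
  let U : Finset ℤ := (Z.erase hi).image (fun z => z - C) ∪ B.image (fun x => τ x - C)
  let g : V → ℤ := fun x => if x = v then -C else τ x - C
  have hgv : g v = -C := by simp [g]
  have hg : ∀ x, x ≠ v → g x = τ x - C := fun x hx => by simp only [g, if_neg hx]
  have hsubinj : Function.Injective (fun z : ℤ => z - C) := by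
    intro a b h
    have : a - C = b - C := h
    linarith
  have hUcard : U.card = n - 1 := by
    have h1 : Disjoint ((Z.erase hi).image (fun z => z - C)) (B.image (fun x => τ x - C)) := by
      rw [Finset.disjoint_left]
      intro t ht ht2
      rw [mem_image] at ht ht2
      obtain ⟨z, hz, rfl⟩ := ht
      obtain ⟨x, hx, hx2⟩ := ht2
      have h3 : τ x = z := by
        have : τ x - C = z - C := hx2
        linarith
      have hx' := (hBmem x).1 hx
      exact (hB x hx'.1 hx'.2).2.2 (h3 ▸ mem_of_mem_erase hz)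
    have h2 : Set.InjOn (fun x => τ x - C) (B : Set V) := by
      intro x hx y hy h
      have hx' := (hBmem x).1 hx
      have hy' := (hBmem y).1 hy
      have : τ x - C = τ y - C := h
      exact hinj x y hx'.1 hx'.2 hy'.1 hy'.2 (by linarith)
    rw [Finset.card_union_of_disjoint h1, Finset.card_image_of_injective _ hsubinj,
      Finset.card_erase_of_mem z3, z1, Finset.card_image_of_injOn h2]
    omega
  have hUsub : U ⊆ Icc 1 (P : ℤ) := by
    intro t ht
    rw [mem_Icc, hP]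
    rw [mem_union, mem_image, mem_image] at ht
    rcases ht with ⟨z, hz, rfl⟩ | ⟨x, hx, rfl⟩
    · have h1 := z4 z (mem_of_mem_erase hz)
      have h2 := ne_of_mem_erase hz
      have h3 : z < hi := lt_of_le_of_ne h1.2 h2
      constructor <;> linarith
    · have hx' := (hBmem x).1 hx
      have h1 := hB x hx'.1 hx'.2
      constructor <;> linarith [h1.1, h1.2.1]
  have hadjB : ∀ x ∈ B, G.Adj x v := by
    intro x hx
    have h1 := (hBmem x).1 hx
    have := hpar1 x h1.1
    rw [h1.2] at this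
    exact this
  have hneg : ∀ z ∈ Z, (∃ x, g x = 1 + C - z) ∨
      (∃ x y, G.Adj x y ∧ (g v + 1) - g x - g y = 1 + C - z) := by
    intro z hz
    rcases z6 z hz with rfl | ⟨x, hx, hx2⟩
    · left
      exact ⟨v, by rw [hgv]; ring⟩
    · right
      have hx' := (hSmem x).1 hx
      refine ⟨x, par x, hpar1 x hx'.1, ?_⟩
      rw [hgv, hg x hx'.1, hg _ hx'.2, ← hx2]
      ring
  refine assemble G v N P par hpar rfl 1 g U hUsub (by rw [hUcard]) ?_ ?_
  · intro t ht
    rw [mem_union, mem_image, mem_image] at ht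
    left
    rcases ht with ⟨z, hz, rfl⟩ | ⟨x, hx, rfl⟩
    · rcases z5 z (mem_of_mem_erase hz) with h | ⟨x, hx, hx2⟩
      · exact absurd h (ne_of_mem_erase hz)
      · exact ⟨x, by rw [hg x ((hSmem x).1 hx).1, hx2]⟩
    · exact ⟨x, hg x ((hBmem x).1 hx).1⟩
  · intro t ht1 ht2 hcase
    rcases hcase with hU1 | h | h
    · rw [mem_union, mem_image, mem_image] at hU1
      rcases hU1 with ⟨z, hz, hz2⟩ | ⟨x, hx, hx2⟩
      · have h5 : t = 1 + C - z := by
          have : z - C = 1 - t := hz2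
          linarith
        rw [h5]
        exact hneg z (mem_of_mem_erase hz)
      · right
        have h5 : τ x - C = 1 - t := hx2
        refine ⟨x, v, hadjB x hx, ?_⟩
        rw [hgv, hg x ((hBmem x).1 hx).1]
        linarith
    · exact absurd h (by linarith)
    · have h5 : t = 1 + C - hi := by
        have : -t ≤ P := by linarith
        linarith
      rw [h5]
      exact hneg hi z3

end Pool.Agent.Lib.MP_8b7544_co
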