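import Pool.Agent.Lib.MP_8b7544_co.Assemble

set_option autoImplicit false

namespace Pool.Agent.Lib.MP_8b7544_co

open Finset

theorem solve_mod (a κ R : ℤ) (hκ : 1 ≤ κ) (h : (Int.gcd a κ : ℤ) ∣ R) :
    ∃ C, 1 ≤ C ∧ C ≤ κ ∧ κ ∣ R - a * C := by
  obtain ⟨t, ht⟩ := h
  have hb := Int.gcd_eq_gcd_ab a κ
  set x := Int.gcdA a κ
  set y := Int.gcdB a κ
  have h1 := Int.emod_nonneg (x * t - 1) (show κ ≠ 0 by linarith)
  have h2 := Int.emod_lt_of_pos (x * t - 1) (show 0 < κ by linarith)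
  refine ⟨(x * t - 1) % κ + 1, by linarith, by linarith, ?_⟩
  have h3 := Int.emod_add_mul_ediv (x * t - 1) κ
  refine ⟨y * t + a * ((x * t - 1) / κ), ?_⟩
  rw [ht, hb]
  have h4 : (x * t - 1) % κ = x * t - 1 - κ * ((x * t - 1) / κ) := by linarith
  rw [h4]
  ring

/-- All vertices adjacent to `v`. -/
theorem star {V : Type} [Fintype V] (G : SimpleGraph V) (v : V) (N : ℕ) (par : V → V)
    (hpar1 : ∀ x, x ≠ v → G.Adj x (par x))
    (hpar : ∀ a b, G.Adj a b → (a ≠ v ∧ par a = b) ∨ (b ≠ v ∧ par b = a))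
    (hS : ∀ x, x ≠ v → par x = v) : EdgeMagic (attach G v N) := by
  classical
  set n := Fintype.card V with hn
  have hV : 0 < Fintype.card V := Fintype.card_pos_iff.2 ⟨v⟩
  have hBc : (univ.erase v).card = n - 1 := by
    rw [Finset.card_erase_of_mem (mem_univ _), Finset.card_univ]
  let e := (univ.erase v).equivFinOfCardEq hBc
  let g : V → ℤ := fun x => if h : x ∈ univ.erase v then ((e ⟨x, h⟩).val : ℤ) + 1 else 0
  have hgv : g v = 0 := by simp [g]
  have key : ∀ t : ℤ, 1 ≤ t → t ≤ ((n - 1 : ℕ) : ℤ) → ∃ x, x ≠ v ∧ g x = t := by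
    intro t ht1 ht2
    have hlt : (t - 1).toNat < n - 1 := by omega
    have hmem := (e.symm ⟨(t - 1).toNat, hlt⟩).2
    refine ⟨(e.symm ⟨(t - 1).toNat, hlt⟩).1, (mem_erase.1 hmem).1, ?_⟩
    simp only [g]
    rw [dif_pos hmem]
    simp
    omega
  have hadj : ∀ x, x ≠ v → G.Adj x v := by
    intro x hx
    have := hpar1 x hx
    rw [hS x hx] at this
    exact this
  refine assemble G v N (n - 1 + N) par hpar rfl 0 g (Icc 1 ((n - 1 : ℕ) : ℤ)) ?_ ?_ ?_ ?_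
  · intro t ht
    rw [mem_Icc] at ht ⊢
    refine ⟨ht.1, ht.2.trans ?_⟩
    push_cast
    linarith
  · rw [Int.card_Icc]; omega
  · intro t ht
    rw [mem_Icc] at ht
    obtain ⟨x, hx, hx2⟩ := key t ht.1 ht.2
    left
    exact ⟨x, hx2⟩
  · intro t ht1 ht2 hcase
    rcases lt_or_eq_of_le ht2 with h | h
    · rcases hcase with h3 | h3 | h3
      · rw [mem_Icc] at h3
        obtain ⟨x, hx, hx2⟩ := key (0 - t) h3.1 h3.2
        right
        exact ⟨x, v, hadj x hx, by rw [hgv, hx2]; ring⟩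
      · omega
      · omega
    · left
      exact ⟨v, by rw [hgv, h]⟩

/-- From linear forms to a chain of integers. -/
theorem isChain_of_forms {V : Type} [DecidableEq V] {par : V → V} {S : Finset V} {m : ℕ}
    (hm : S.card = m) {γ : V → ℤ × ℤ} {Z : Finset (ℤ × ℤ)} {Y : ℤ × ℤ}
    (h3 : Z.card = m + 1) (h4 : Y ∈ Z)
    (h5 : ∀ z ∈ Z, 1 ≤ z.1 ∧ 0 ≤ z.2 ∧ z.1 ≤ Y.1 ∧ z.2 ≤ Y.2)
    (h5' : ∀ z ∈ Z, ∀ z' ∈ Z, z = z' ∨ (z.1 ≤ z'.1 ∧ z.2 ≤ z'.2) ∨ (z'.1 ≤ z.1 ∧ z'.2 ≤ z.2))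
    (h0 : (1, 0) ∈ Z)
    (h6 : ∀ z ∈ Z, z = Y ∨ ∃ x ∈ S, γ x = z)
    (h7 : ∀ z ∈ Z, z = (1, 0) ∨ ∃ x ∈ S, γ x + γ (par x) = z)
    {T J : ℤ} (hT : 0 < T) (hJ : 0 < J) {τ : V → ℤ}
    (hτ : ∀ x ∈ S, τ x = (γ x).1 * T + (γ x).2 * J ∧
      τ (par x) = (γ (par x)).1 * T + (γ (par x)).2 * J) :
    IsChain par τ S (Z.image (fun z => z.1 * T + z.2 * J)) T (Y.1 * T + Y.2 * J) := by
  have hinj : Set.InjOn (fun z : ℤ × ℤ => z.1 * T + z.2 * J) (Z : Set (ℤ × ℤ)) := by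
    intro z hz z' hz' h
    have h : z.1 * T + z.2 * J = z'.1 * T + z'.2 * J := h
    rcases h5' z hz z' hz' with h1 | ⟨h1, h2⟩ | ⟨h1, h2⟩
    · exact h1
    · have e1 : z.1 = z'.1 := by
        by_contra hne
        have : z.1 + 1 ≤ z'.1 := by omega
        nlinarith
      have e2 : z.2 = z'.2 := by
        by_contra hne
        have : z.2 + 1 ≤ z'.2 := by omega
        nlinarith
      exact Prod.ext e1 e2
    · have e1 : z.1 = z'.1 := by
        by_contra hne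
        have : z'.1 + 1 ≤ z.1 := by omega
        nlinarith
      have e2 : z.2 = z'.2 := by
        by_contra hne
        have : z'.2 + 1 ≤ z.2 := by omega
        nlinarith
      exact Prod.ext e1 e2
  refine ⟨?_, ?_, ?_, ?_, ?_, ?_⟩
  · rw [Finset.card_image_of_injOn hinj, h3, hm]
  · rw [mem_image]
    exact ⟨(1, 0), h0, by simp⟩
  · exact mem_image_of_mem _ h4
  · intro t ht
    rw [mem_image] at ht
    obtain ⟨z, hz, rfl⟩ := ht
    obtain ⟨a1, a2, a3, a4⟩ := h5 z hz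
    constructor
    · nlinarith
    · nlinarith
  · intro t ht
    rw [mem_image] at ht
    obtain ⟨z, hz, rfl⟩ := ht
    rcases h6 z hz with rfl | ⟨x, hx, rfl⟩
    · left; rfl
    · right; exact ⟨x, hx, (hτ x hx).1⟩
  · intro t ht
    rw [mem_image] at ht
    obtain ⟨z, hz, rfl⟩ := ht
    rcases h7 z hz with rfl | ⟨x, hx, rfl⟩
    · left; simp
    · right
      refine ⟨x, hx, ?_⟩
      rw [(hτ x hx).1, (hτ x hx).2, Prod.fst_add, Prod.snd_add]
      ring

/-- General tree: arithmetic progression of admissible numbers of leaves. -/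
theorem part_a {V : Type} [Fintype V] (G : SimpleGraph V) (hG : G.IsTree) (v : V) :
    ∃ q : ℕ, Odd q ∧ ∃ N₁ : ℕ, ∀ N, N₁ ≤ N → q ∣ 2 * (Fintype.card V + N) - 1 →
      EdgeMagic (attach G v N) := by
  classical
  obtain ⟨par, d, hpar, hpar2⟩ := exists_par G hG v
  have hV : 0 < Fintype.card V := Fintype.card_pos_iff.2 ⟨v⟩
  set n := Fintype.card V with hn
  by_cases hSne : ∀ x, x ≠ v → par x = v
  · exact ⟨1, odd_one, 0, fun N _ _ => star G v N par (fun x hx => (hpar x hx).1) hpar2 hSne⟩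
  let S : Finset V := univ.filter (fun x => x ≠ v ∧ par x ≠ v)
  have hSmem : ∀ x, x ∈ S ↔ x ≠ v ∧ par x ≠ v := fun x => by simp [S]
  have hSne' : S.Nonempty := by
    push Not at hSne
    obtain ⟨x, hx⟩ := hSne
    exact ⟨x, (hSmem x).2 hx⟩
  have hι : ∃ ι : V → ℕ, Function.Injective ι ∧ ∀ x, ι x < n := by
    refine ⟨fun x => (Fintype.equivFin V x).val, ?_, fun x => (Fintype.equivFin V x).isLt⟩
    intro x y h
    exact (Fintype.equivFin V).injective (Fin.ext h)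
  obtain ⟨ι, hιinj, hιlt⟩ := hι
  obtain ⟨x0, hx0, hmin⟩ := Finset.exists_min_image S d hSne'
  have hx0' := (hSmem x0).1 hx0
  obtain ⟨u, hu⟩ : ∃ u, u = par x0 := ⟨_, rfl⟩
  have huS : u ∉ S := by
    intro h
    have h1 := hmin u h
    have h2 := (hpar x0 hx0'.1).2
    rw [← hu] at h2
    omega
  have huv : u ≠ v := by rw [hu]; exact hx0'.2
  have hupar : par u = v := by
    by_contra h
    exact huS ((hSmem u).2 ⟨huv, h⟩)
  let β : V → ℤ := fun x =>
    if x = u then (n : ℤ) + 1 else if x ≠ v ∧ par x = v then (ι x : ℤ) + 1 else 0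
  have hβ : ∀ x, 0 ≤ β x := by
    intro x
    simp only [β]
    split_ifs <;> positivity
  have hβA : ∀ x, β x ≤ (n : ℤ) + 1 := by
    intro x
    have := hιlt x
    simp only [β]
    split_ifs <;> omega
  have hβu : β u = n + 1 := by simp [β]
  have hβ1 : ∀ x, x ≠ v → par x = v → 1 ≤ β x := by
    intro x hx hx2
    simp only [β, hx, hx2, ne_eq, not_false_eq_true, and_self, if_true]
    split_ifs <;> omega
  have hβinj : ∀ x y, x ≠ v → par x = v → y ≠ v → par y = v → β x = β y → x = y := by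
    intro x y hx hx2 hy hy2 h
    have h1 := hιlt x
    have h2 := hιlt y
    simp only [β, hx, hx2, hy, hy2, ne_eq, not_false_eq_true, and_self, if_true] at h
    split_ifs at h with h3 h4 h4
    · rw [h3, h4]
    · omega
    · omega
    · exact hιinj (by omega)
  have hout : ∀ x ∈ S, par x ∉ S → par x ≠ v ∧ par (par x) = v := by
    intro x hx hpx
    have hx' := (hSmem x).1 hx
    refine ⟨hx'.2, ?_⟩
    by_contra h
    exact hpx ((hSmem _).2 ⟨hx'.2, h⟩)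
  obtain ⟨γ, Z, Y, c1, c2, c3, c4, c5, c5', c6, c7, c8⟩ :=
    forms par d β hβ S.card S rfl (fun x hx => (hpar x ((hSmem x).1 hx).1).2)
      (fun x hx hpx => hβ1 _ (hout x hx hpx).1 (hout x hx hpx).2)
  have hκ : (n : ℤ) + 1 ≤ Y.2 := by
    have := c8 x0 hx0 (by rw [← hu]; exact huS)
    rw [← hu, hβu] at this
    exact this
  have hξ : 1 ≤ Y.1 := (c5 Y c4).1
  have hZ0 : (1, 0) ∈ Z := by
    by_contra h
    -- `Z` has one more element than `S`, while everything but `(1,0)` comes from `S`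
    have hsub : Z ⊆ S.image (fun x => γ x + γ (par x)) := by
      intro z hz
      rcases c7 z hz with rfl | ⟨x, hx, hx2⟩
      · exact absurd hz h
      · exact mem_image.2 ⟨x, hx, hx2⟩
    have h1 := Finset.card_le_card hsub
    have h2 : (S.image (fun x => γ x + γ (par x))).card ≤ S.card := Finset.card_image_le
    omega
  obtain ⟨ξ, hξe⟩ : ∃ ξ, ξ = Y.1 := ⟨_, rfl⟩
  obtain ⟨κ, hκe⟩ : ∃ κ, κ = Y.2 := ⟨_, rfl⟩
  rw [← hξe] at hξ
  rw [← hκe] at hκ
  have hodd : Odd (Int.gcd (2 * ξ - 1) κ) := by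
    have h1 : (Int.gcd (2 * ξ - 1) κ : ℤ) ∣ 2 * ξ - 1 := Int.gcd_dvd_left _ _
    have h2 : Odd (2 * ξ - 1) := ⟨ξ - 1, by ring⟩
    obtain ⟨c, hc⟩ := h1
    rw [hc] at h2
    have := (Int.odd_mul.1 h2).1
    exact_mod_cast this
  refine ⟨Int.gcd (2 * ξ - 1) κ, hodd,
    (ξ + (2 * ξ - 1) * κ + κ * ((2 * κ + 1) * ξ + 1) + κ * (κ + 2)).toNat, ?_⟩
  intro N hN hq
  -- the equation for `C` and `J`
  have hPlarge : ξ + (2 * ξ - 1) * κ + κ * ((2 * κ + 1) * ξ + 1) + κ * (κ + 2) ≤ (N : ℤ) := by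
    have := Int.self_le_toNat (ξ + (2 * ξ - 1) * κ + κ * ((2 * κ + 1) * ξ + 1) + κ * (κ + 2))
    have h2 : (((ξ + (2 * ξ - 1) * κ + κ * ((2 * κ + 1) * ξ + 1) + κ * (κ + 2)).toNat : ℕ) : ℤ)
      ≤ N := by exact_mod_cast hN
    linarith
  obtain ⟨P, hPdef⟩ : ∃ P : ℤ, P = ((n - 1 + N : ℕ) : ℤ) := ⟨_, rfl⟩
  have hPn : P = (n : ℤ) - 1 + N := by rw [hPdef]; omega
  have hdiv : (Int.gcd (2 * ξ - 1) κ : ℤ) ∣ P - (ξ - 1) := by
    have h1 : ((Int.gcd (2 * ξ - 1) κ : ℕ) : ℤ) ∣ ((2 * (n + N) - 1 : ℕ) : ℤ) :=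
      Int.natCast_dvd_natCast.2 hq
    have h2 : ((2 * (n + N) - 1 : ℕ) : ℤ) = 2 * P + 1 := by rw [hPn]; omega
    rw [h2] at h1
    have h3 : (Int.gcd (2 * ξ - 1) κ : ℤ) ∣ 2 * ξ - 1 := Int.gcd_dvd_left _ _
    have h4 : (Int.gcd (2 * ξ - 1) κ : ℤ) ∣ 2 * (P - (ξ - 1)) := by
      have h5 : 2 * (P - (ξ - 1)) = (2 * P + 1) - (2 * ξ - 1) := by ring
      rw [h5]
      exact dvd_sub h1 h3
    have h6 : IsCoprime (Int.gcd (2 * ξ - 1) κ : ℤ) 2 := by
      have := Nat.isCoprime_iff_coprime.2 hodd.coprime_two_right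
      exact_mod_cast this
    exact h6.dvd_of_dvd_mul_left h4
  obtain ⟨C, hC1, hC2, J, hJ⟩ := solve_mod (2 * ξ - 1) κ (P - (ξ - 1)) (by linarith) hdiv
  have hJlarge : (2 * κ + 1) * ξ + 1 + (κ + 2) ≤ J := by
    have h1 : κ * J = P - (ξ - 1) - (2 * ξ - 1) * C := by linarith
    have h2 : (2 * ξ - 1) * C ≤ (2 * ξ - 1) * κ := by nlinarith
    have h3 : κ * ((2 * κ + 1) * ξ + 1 + (κ + 2)) ≤ κ * J := by
      rw [h1]
      have : κ * ((2 * κ + 1) * ξ + 1 + (κ + 2)) = κ * ((2 * κ + 1) * ξ + 1) + κ * (κ + 2) := by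
        ring
      rw [this]
      linarith
    exact le_of_mul_le_mul_left h3 (by linarith)
  have hTpos : 0 < 2 * C + 1 := by linarith
  have hκ0 : 0 < κ := by linarith
  have hξ0 : 0 < ξ := by linarith
  have hξκ : 0 ≤ (2 * κ + 1) * ξ := by positivity
  have hJpos : 0 < J := by linarith
  let τ : V → ℤ := fun x =>
    if x ≠ v ∧ par x = v then β x * J else (γ x).1 * (2 * C + 1) + (γ x).2 * J
  have hτB : ∀ x, x ≠ v → par x = v → τ x = β x * J := by
    intro x h1 h2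
    simp only [τ, h1, h2, ne_eq, not_false_eq_true, and_self, if_true]
  have hτS : ∀ x, x ∈ S → τ x = (γ x).1 * (2 * C + 1) + (γ x).2 * J := by
    intro x hx
    have := (hSmem x).1 hx
    simp only [τ, this.2, and_false, if_false]
  have hch := isChain_of_forms (par := par) (S := S) rfl c3 c4 c5 c5' hZ0 c6 c7 hTpos hJpos
    (τ := τ) (by
      intro x hx
      refine ⟨hτS x hx, ?_⟩
      by_cases hp : par x ∈ S
      · exact hτS _ hp
      · have h1 := hout x hx hp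
        rw [hτB _ h1.1 h1.2, c1 _ hp]
        simp)
  rw [← hξe, ← hκe] at hch
  refine assemble_one G v N par (fun x hx => (hpar x hx).1) hpar2 C hC1 τ _ _ hch ?_ ?_ ?_
  · intro x y hx hx2 hy hy2 h
    rw [hτB x hx hx2, hτB y hy hy2] at h
    exact hβinj x y hx hx2 hy hy2 (mul_right_cancel₀ hJpos.ne' h)
  · intro x hx hx2
    rw [hτB x hx hx2]
    have h1 := hβ1 x hx hx2
    have h2 := hβA x
    refine ⟨by nlinarith, by nlinarith, ?_⟩
    intro hmem
    rw [mem_image] at hmem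
    obtain ⟨z, hz, hz2⟩ := hmem
    obtain ⟨a1, a2, a3, a4⟩ := c5 z hz
    rw [← hξe] at a3
    have h3 : 0 < z.1 * (2 * C + 1) := by positivity
    have h4 : z.1 * (2 * C + 1) < J := by nlinarith
    have h5 : z.1 * (2 * C + 1) = (β x - z.2) * J := by linarith
    rw [h5] at h3 h4
    have h6 : 0 < β x - z.2 := pos_of_mul_pos_left h3 hJpos.le
    nlinarith
  · rw [← hPdef]
    linarith

end Pool.Agent.Lib.MP_8b7544_co
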