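import Mathlib

set_option autoImplicit false

namespace Pool.Agent.Lib.MP_8b7544_co

/-- `G` is edge-magic: its vertices and edges can be labelled bijectively by `1, …, p + q` so that
`label u + label (uv) + label v` is the same number `k` for every edge `uv`. -/
def EdgeMagic {W : Type} (G : SimpleGraph W) : Prop :=
  ∃ e : (W ⊕ G.edgeSet) ≃ Fin (Nat.card (W ⊕ G.edgeSet)), ∃ k : ℕ,
    ∀ (u v : W) (h : G.Adj u v),
      ((e (Sum.inl u)).val + 1)
        + ((e (Sum.inr ⟨s(u, v), (SimpleGraph.mem_edgeSet G).mpr h⟩)).val + 1)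
        + ((e (Sum.inl v)).val + 1) = k

/-- The graph obtained from `G` by attaching `N` new leaves to the vertex `v`. -/
def attach {V : Type} (G : SimpleGraph V) (v : V) (N : ℕ) : SimpleGraph (V ⊕ Fin N) where
  Adj x y :=
    (∃ a b, x = Sum.inl a ∧ y = Sum.inl b ∧ G.Adj a b) ∨
      (∃ i, x = Sum.inl v ∧ y = Sum.inr i) ∨ (∃ i, x = Sum.inr i ∧ y = Sum.inl v)
  symm := ⟨by
    rintro x y (⟨a, b, rfl, rfl, h⟩ | ⟨i, rfl, rfl⟩ | ⟨i, rfl, rfl⟩)
    · exact Or.inl ⟨b, a, rfl, rfl, h.symm⟩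
    · exact Or.inr (Or.inr ⟨i, rfl, rfl⟩)
    · exact Or.inr (Or.inl ⟨i, rfl, rfl⟩)⟩
  loopless := ⟨by
    rintro x (⟨a, b, rfl, h2, h⟩ | ⟨i, rfl, h⟩ | ⟨i, rfl, h⟩)
    · rw [Sum.inl.injEq] at h2
      subst h2
      exact h.ne rfl
    · cases h
    · cases h⟩

end Pool.Agent.Lib.MP_8b7544_co
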