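import Pool.Agent.Lib.MP_8b7544_co.Assemble

set_option autoImplicit false

namespace Pool.Agent.Lib.MP_8b7544_co

open Finset

theorem not_mult {K α γ q : ℤ} (h1 : 1 ≤ α) (h2 : α < K) (h : α + K * γ = K * q) : False := by
  have h3 : α = K * (q - γ) := by linarith
  have hK : 0 < K := by linarith
  rcases le_or_gt (q - γ) 0 with h4 | h4
  · nlinarith
  · nlinarith

theorem part_b {V : Type} [Fintype V] (G : SimpleGraph V) (hG : G.IsTree) (v u w : V)
    (huv : G.Adj v u) (huw : G.Adj u w) (hwv : w ≠ v) (hdeg : ∀ x, G.Adj u x → x = v ∨ x = w)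
    (N : ℕ) (hN : 4 ^ Fintype.card V ≤ N) : EdgeMagic (attach G v N) := by
  classical
  obtain ⟨par, d, hpar, hpar2⟩ := exists_par G hG v
  set n := Fintype.card V with hn
  have hu : u ≠ v := huv.ne.symm
  have hpu : par u = v := by
    rcases hpar2 u v huv.symm with ⟨_, h⟩ | ⟨h, _⟩
    · exact h
    · exact absurd rfl h
  have hpw : par w = u := by
    rcases hpar2 u w huw with ⟨_, h⟩ | ⟨_, h⟩
    · exact absurd (h.symm.trans hpu) hwv
    · exact h
  have hwu : w ≠ u := huw.ne.symm
  let S : Finset V := univ.filter (fun x => x ≠ v ∧ par x ≠ v ∧ x ≠ w)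
  let B : Finset V := univ.filter (fun x => x ≠ v ∧ par x = v ∧ x ≠ u)
  have hSmem : ∀ x, x ∈ S ↔ x ≠ v ∧ par x ≠ v ∧ x ≠ w := fun x => by simp [S]
  have hBmem : ∀ x, x ∈ B ↔ x ≠ v ∧ par x = v ∧ x ≠ u := fun x => by simp [B]
  have hSB : S.card + B.card + 3 = n := by
    have h1 : Disjoint S B := by
      rw [Finset.disjoint_left]
      intro x hx hx2
      exact ((hSmem x).1 hx).2.1 ((hBmem x).1 hx2).2.1
    have h2 : insert v (insert u (insert w (S ∪ B))) = univ := by
      ext x
      simp only [mem_insert, mem_union, hSmem, hBmem, mem_univ, iff_true]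
      tauto
    have h3 : w ∉ S ∪ B := by
      rw [mem_union, hSmem, hBmem, hpw]
      tauto
    have h4 : u ∉ insert w (S ∪ B) := by
      rw [mem_insert, mem_union, hSmem, hBmem, hpu]
      tauto
    have h5 : v ∉ insert u (insert w (S ∪ B)) := by
      rw [mem_insert, mem_insert, mem_union, hSmem, hBmem]
      tauto
    have h6 := congrArg Finset.card h2
    rw [Finset.card_insert_of_notMem h5, Finset.card_insert_of_notMem h4,
      Finset.card_insert_of_notMem h3, Finset.card_union_of_disjoint h1, Finset.card_univ] at h6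
    exact h6
  let β : V → ℤ := fun x => if h : x ∈ B then ((B.equivFin ⟨x, h⟩).val : ℤ) + 1 else 0
  have hβ : ∀ x, 0 ≤ β x := by
    intro x
    simp only [β]
    split_ifs <;> positivity
  have hβA : ∀ x, β x ≤ B.card := by
    intro x
    simp only [β]
    split_ifs with h
    · have := (B.equivFin ⟨x, h⟩).isLt
      omega
    · positivity
  have hβ1 : ∀ x ∈ B, 1 ≤ β x := by
    intro x hx
    simp only [β, dif_pos hx]
    omega
  have hβinj : ∀ x ∈ B, ∀ y ∈ B, β x = β y → x = y := by
    intro x hx y hy h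
    simp only [β, dif_pos hx, dif_pos hy] at h
    have h2 : B.equivFin ⟨x, hx⟩ = B.equivFin ⟨y, hy⟩ := Fin.ext (by omega)
    have h3 := B.equivFin.injective h2
    exact congrArg Subtype.val h3
  obtain ⟨K, hK⟩ : ∃ K : ℤ, K = 2 ^ n := ⟨_, rfl⟩
  have hKpos : 0 < K := by rw [hK]; positivity
  let b : V → ℤ := fun x => K * β x
  have hb0 : ∀ x, 0 ≤ b x := fun x => mul_nonneg hKpos.le (hβ x)
  have hbA : ∀ x, b x ≤ K * B.card := fun x => mul_le_mul_of_nonneg_left (hβA x) hKpos.le
  obtain ⟨g, Z, Y, c1, c2, c3, c4, c5, c6, c7, c8, c9, _⟩ :=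
    chain par d 1 0 K (K * B.card) (by norm_num) (by norm_num) (by positivity) b β
      (fun x => rfl) hβ hb0 hbA S.card S rfl (fun x hx => (hpar x ((hSmem x).1 hx).1).2)
  -- size estimates
  have hpow : (2 : ℤ) ^ S.card * (2 + K * B.card) ≤ 4 ^ n ∧ K * B.card ≤ 4 ^ n := by
    have h1 : (B.card : ℤ) + 1 ≤ 2 ^ B.card := by
      exact_mod_cast (Nat.lt_two_pow_self : B.card < 2 ^ B.card)
    have h2 : (2 : ℤ) ≤ K := by
      rw [hK]
      calc (2 : ℤ) = 2 ^ 1 := by norm_num
        _ ≤ 2 ^ n := pow_le_pow_right₀ (by norm_num) (by omega)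
    have h3 : (2 : ℤ) ^ S.card * (K * 2 ^ B.card) ≤ 4 ^ n := by
      have e1 : (2 : ℤ) ^ S.card * (K * 2 ^ B.card) = 2 ^ (n + S.card + B.card) := by
        rw [hK, pow_add, pow_add]; ring
      have e2 : (4 : ℤ) ^ n = 2 ^ (2 * n) := by rw [pow_mul]; norm_num
      rw [e1, e2]
      exact pow_le_pow_right₀ (by norm_num) (by omega)
    have h4 : (1 : ℤ) ≤ 2 ^ S.card := one_le_pow₀ (by norm_num)
    have h5 : 2 + K * (B.card : ℤ) ≤ K * 2 ^ B.card := by nlinarith
    have h6 : (2 : ℤ) ^ S.card * (2 + K * B.card) ≤ 2 ^ S.card * (K * 2 ^ B.card) :=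
      mul_le_mul_of_nonneg_left h5 (by positivity)
    have h7 : 0 ≤ K * (B.card : ℤ) := by positivity
    refine ⟨h6.trans h3, ?_⟩
    nlinarith
  have hYle : Y + 1 ≤ 4 ^ n := by
    have := c9 Y c4
    have h2 := hpow.1
    have e : (2 : ℤ) ^ S.card * (2 * 1 + 0 + K * B.card) = 2 ^ S.card * (2 + K * B.card) := by ring
    rw [e] at this
    linarith
  have hY1 := (c5 Y c4).1
  obtain ⟨P, hP⟩ : ∃ P : ℕ, P = n - 1 + N := ⟨_, rfl⟩
  have hPbig : (4 : ℤ) ^ n ≤ P := by
    have h1 : ((4 ^ n : ℕ) : ℤ) ≤ (N : ℤ) := by exact_mod_cast hN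
    rw [hP]
    push_cast at h1 ⊢
    have : (0 : ℤ) ≤ ((n - 1 : ℕ) : ℤ) := by positivity
    linarith
  have hαK : ∀ z ∈ Z, ∃ α γ : ℤ, z = α + K * γ ∧ 1 ≤ α ∧ α + 1 < K := by
    intro z hz
    obtain ⟨α, γ, e1, _, e3, e4⟩ := c8 z hz
    refine ⟨α, γ, e1, e3, ?_⟩
    have h1 : (2 : ℤ) ^ S.card * (2 * 1 + 0) = 2 ^ (S.card + 1) := by rw [pow_succ]; ring
    rw [h1] at e4
    have h2 : (2 : ℤ) ^ (S.card + 1) < K := by
      rw [hK]
      exact pow_lt_pow_right₀ (by norm_num) (by omega)
    linarith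
  let U : Finset ℤ := insert (Y + 1) Z ∪ B.image b
  have hY1Z : Y + 1 ∉ Z := by
    intro h
    have := (c5 _ h).2
    linarith
  have hbinj : Set.InjOn b (B : Set V) := by
    intro x hx y hy h
    exact hβinj x hx y hy (mul_left_cancel₀ hKpos.ne' h)
  have hUcard : U.card = n - 1 := by
    have h1 : Disjoint (insert (Y + 1) Z) (B.image b) := by
      rw [Finset.disjoint_left]
      intro t ht ht2
      rw [mem_image] at ht2
      obtain ⟨x, hx, hx2⟩ := ht2
      have hx2 : K * β x = t := hx2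
      rcases mem_insert.1 ht with rfl | ht
      · obtain ⟨α, γ, e1, e2, e3⟩ := hαK Y c4
        have h3 : (α + 1) + K * γ = K * β x := by rw [hx2, e1]; ring
        exact not_mult (by linarith) (by linarith) h3
      · obtain ⟨α, γ, e1, e2, e3⟩ := hαK t ht
        have h3 : α + K * γ = K * β x := by rw [hx2, e1]
        exact not_mult (by linarith) (by linarith) h3
    rw [Finset.card_union_of_disjoint h1, Finset.card_insert_of_notMem hY1Z, c3,
      Finset.card_image_of_injOn hbinj]
    omega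
  have hUsub : U ⊆ Icc 1 (P : ℤ) := by
    intro t ht
    rw [mem_Icc]
    rcases mem_union.1 ht with ht | ht
    · rcases mem_insert.1 ht with rfl | ht
      · constructor <;> linarith
      · have := c5 t ht
        constructor <;> linarith [this.1, this.2]
    · rw [mem_image] at ht
      obtain ⟨x, hx, rfl⟩ := ht
      have h1 := hβ1 x hx
      have h2 := hbA x
      have h3 : K * 1 ≤ K * β x := mul_le_mul_of_nonneg_left h1 hKpos.le
      have h4 : b x = K * β x := rfl
      refine ⟨by rw [h4]; linarith, ?_⟩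
      linarith [hpow.2]
  let g' : V → ℤ := fun x => if x = v then -1 else if x = u then -(1 + Y) else g x
  have hg'v : g' v = -1 := by simp [g']
  have hg'u : g' u = -(1 + Y) := by simp [g', hu]
  have hg' : ∀ x, x ≠ v → x ≠ u → g' x = g x := by
    intro x h1 h2
    simp only [g', if_neg h1, if_neg h2]
  have hSu : ∀ x ∈ S, x ≠ u := by
    rintro x hx rfl
    exact ((hSmem _).1 hx).2.1 hpu
  have hg'S : ∀ x ∈ S, g' x = g x := fun x hx => hg' x ((hSmem x).1 hx).1 (hSu x hx)
  have hg'B : ∀ x ∈ B, g' x = b x := by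
    intro x hx
    have hx' := (hBmem x).1 hx
    rw [hg' x hx'.1 hx'.2.2]
    exact c1 x (fun h => ((hSmem x).1 h).2.1 hx'.2.1)
  have hg'w : g' w = 0 := by
    rw [hg' w hwv hwu, c1 w (fun h => ((hSmem w).1 h).2.2 rfl)]
    have : w ∉ B := by
      intro h
      have := ((hBmem w).1 h).2.1
      rw [hpw] at this
      exact hu this
    simp only [b, β, dif_neg this, mul_zero]
  have hg'par : ∀ x ∈ S, g' (par x) = g (par x) := by
    intro x hx
    have hx' := (hSmem x).1 hx
    refine hg' _ hx'.2.1 ?_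
    intro h
    have h2 := (hpar x hx'.1).1
    rw [h] at h2
    rcases hdeg x h2.symm with h3 | h3
    · exact hx'.1 h3
    · exact hx'.2.2 h3
  refine assemble G v N P par hpar2 hP.symm 0 g' U hUsub (by omega) ?_ ?_
  · intro t ht
    rcases mem_union.1 ht with ht | ht
    · rcases mem_insert.1 ht with rfl | ht
      · right
        exact ⟨u, v, huv.symm, by rw [hg'u, hg'v]; ring⟩
      · rcases c6 t ht with rfl | ⟨x, hx, hx2⟩
        · right
          exact ⟨w, u, huw.symm, by rw [hg'u, hg'v, hg'w]; ring⟩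
        · left
          exact ⟨x, by rw [hg'S x hx, hx2]; ring⟩
    · rw [mem_image] at ht
      obtain ⟨x, hx, rfl⟩ := ht
      left
      exact ⟨x, hg'B x hx⟩
  · intro t ht1 ht2 hcase
    rcases lt_or_eq_of_le ht2 with hneg | h0
    swap
    · left
      exact ⟨w, by rw [hg'w, h0]⟩
    have hUt : 0 - t ∈ U := by
      rcases hcase with h | h | h
      · exact h
      · omega
      · omega
    rcases mem_union.1 hUt with h | h
    · rcases mem_insert.1 h with h | h
      · left
        exact ⟨u, by rw [hg'u]; linarith⟩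
      · rcases c7 _ h with h3 | ⟨x, hx, hx2⟩
        · left
          exact ⟨v, by rw [hg'v]; linarith⟩
        · right
          refine ⟨x, par x, (hpar x ((hSmem x).1 hx).1).1, ?_⟩
          rw [hg'v, hg'S x hx, hg'par x hx]
          linarith
    · rw [mem_image] at h
      obtain ⟨x, hx, hx2⟩ := h
      right
      have hx' := (hBmem x).1 hx
      have hadj := (hpar x hx'.1).1
      rw [hx'.2.1] at hadj
      refine ⟨x, v, hadj, ?_⟩
      rw [hg'v, hg'B x hx, hx2]
      ring

end Pool.Agent.Lib.MP_8b7544_co
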