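import Pool.Agent.Lib.MP_8b7544_co.Defs

set_option autoImplicit false

namespace Pool.Agent.Lib.MP_8b7544_co

open Finset

theorem edgeMagic_of_surj {W : Type} [Fintype W] (H : SimpleGraph W) (P : ℕ)
    (hcard : Nat.card (W ⊕ H.edgeSet) ≤ 2 * P + 1) (g : W → ℤ) (k : ℤ)
    (hs : ∀ t : ℤ, -(P : ℤ) ≤ t → t ≤ P →
      (∃ x, g x = t) ∨ (∃ x y, H.Adj x y ∧ k - g x - g y = t)) : EdgeMagic H := by
  classical
  haveI : Fintype H.edgeSet := Fintype.ofFinite _
  let σ : Sym2 W → ℤ := Sym2.lift ⟨fun a b => g a + g b, fun a b => add_comm _ _⟩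
  have hσ : ∀ a b, σ s(a, b) = g a + g b := fun a b => Sym2.lift_mk _ _ _
  let F : W ⊕ H.edgeSet → ℤ := Sum.elim g (fun e => k - σ e.1)
  have hF : Icc (-(P : ℤ)) P ⊆ univ.image F := by
    intro t ht
    rw [mem_Icc] at ht
    rw [mem_image]
    rcases hs t ht.1 ht.2 with ⟨x, hx⟩ | ⟨x, y, hxy, h⟩
    · exact ⟨Sum.inl x, mem_univ _, hx⟩
    · refine ⟨Sum.inr ⟨s(x, y), (SimpleGraph.mem_edgeSet H).mpr hxy⟩, mem_univ _, ?_⟩
      simp only [F, Sum.elim_inr, hσ]
      linarith
  have hc : (univ : Finset (W ⊕ H.edgeSet)).card = Nat.card (W ⊕ H.edgeSet) := by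
    rw [Nat.card_eq_fintype_card]; rfl
  have hIcc : (Icc (-(P : ℤ)) P).card = 2 * P + 1 := by
    rw [Int.card_Icc]; omega
  have hle : (univ.image F).card ≤ (Icc (-(P : ℤ)) P).card := by
    refine card_image_le.trans ?_
    rw [hc, hIcc]; exact hcard
  have himg : Icc (-(P : ℤ)) P = univ.image F := Finset.eq_of_subset_of_card_le hF hle
  have hcard2 : Nat.card (W ⊕ H.edgeSet) = 2 * P + 1 := by
    refine le_antisymm hcard ?_
    rw [← hc, ← hIcc, himg]
    exact card_image_le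
  have hinj : Function.Injective F := by
    have : Set.InjOn F (univ : Finset (W ⊕ H.edgeSet)) := by
      rw [← Finset.card_image_iff, ← himg, hIcc, hc, hcard2]
    intro x y hxy
    exact this (by simp) (by simp) hxy
  have hbd : ∀ z, -(P : ℤ) ≤ F z ∧ F z ≤ P := by
    intro z
    have : F z ∈ Icc (-(P : ℤ)) P := by
      rw [himg]; exact mem_image_of_mem _ (mem_univ _)
    exact mem_Icc.1 this
  let φ : W ⊕ H.edgeSet → Fin (Nat.card (W ⊕ H.edgeSet)) := fun z =>
    ⟨(F z + P).toNat, by have := hbd z; rw [hcard2]; omega⟩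
  have hφ : ∀ z, ((φ z).val : ℤ) = F z + P := by
    intro z
    have := hbd z
    simp only [φ]
    omega
  have hφinj : Function.Injective φ := by
    intro x y hxy
    apply hinj
    have h1 := hφ x
    have h2 := hφ y
    rw [hxy] at h1
    linarith
  have hφbij : Function.Bijective φ := by
    rw [Fintype.bijective_iff_injective_and_card]
    refine ⟨hφinj, ?_⟩
    rw [Fintype.card_fin, Nat.card_eq_fintype_card]
  refine ⟨Equiv.ofBijective φ hφbij, (k + 3 * P + 3).toNat, ?_⟩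
  intro u v h
  have h1 := hφ (Sum.inl u)
  have h2 := hφ (Sum.inl v)
  have h3 := hφ (Sum.inr ⟨s(u, v), (SimpleGraph.mem_edgeSet H).mpr h⟩)
  simp only [Equiv.ofBijective_apply]
  simp only [F, Sum.elim_inl, Sum.elim_inr, hσ] at h1 h2 h3
  omega

theorem card_attach_le {V : Type} [Fintype V] (G : SimpleGraph V) (v : V) (N : ℕ) (par : V → V)
    (hpar : ∀ a b, G.Adj a b → (a ≠ v ∧ par a = b) ∨ (b ≠ v ∧ par b = a)) :
    Nat.card ((V ⊕ Fin N) ⊕ (attach G v N).edgeSet) ≤ 2 * (Fintype.card V - 1 + N) + 1 := by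
  classical
  have hV : 0 < Fintype.card V := Fintype.card_pos_iff.2 ⟨v⟩
  have h1 : Nat.card (attach G v N).edgeSet ≤ Nat.card ({x : V // x ≠ v} ⊕ Fin N) := by
    let ψ : {x : V // x ≠ v} ⊕ Fin N → Sym2 (V ⊕ Fin N) :=
      Sum.elim (fun x => s(Sum.inl x.1, Sum.inl (par x.1))) (fun i => s(Sum.inl v, Sum.inr i))
    have hsub : (attach G v N).edgeSet ⊆ Set.range ψ := by
      intro e
      induction e using Sym2.ind with
      | _ x y =>
        intro h
        rw [SimpleGraph.mem_edgeSet] at h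
        rcases h with ⟨a, b, rfl, rfl, h⟩ | ⟨i, rfl, rfl⟩ | ⟨i, rfl, rfl⟩
        · rcases hpar a b h with ⟨h1, h2⟩ | ⟨h1, h2⟩
          · refine ⟨Sum.inl ⟨a, h1⟩, ?_⟩
            simp only [ψ, Sum.elim_inl, h2]
          · refine ⟨Sum.inl ⟨b, h1⟩, ?_⟩
            simp only [ψ, Sum.elim_inl, h2]
            exact Sym2.eq_swap
        · exact ⟨Sum.inr i, rfl⟩
        · exact ⟨Sum.inr i, Sym2.eq_swap⟩
    calc Nat.card (attach G v N).edgeSet = (attach G v N).edgeSet.ncard := rfl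
      _ ≤ (Set.range ψ).ncard := Set.ncard_le_ncard hsub (Set.toFinite _)
      _ ≤ Nat.card ({x : V // x ≠ v} ⊕ Fin N) := by
          rw [← Set.image_univ]
          refine (Set.ncard_image_le Set.finite_univ).trans ?_
          rw [Set.ncard_univ]
  have h2 : Nat.card ({x : V // x ≠ v} ⊕ Fin N) = Fintype.card V - 1 + N := by
    rw [Nat.card_eq_fintype_card, Fintype.card_sum, Fintype.card_fin, Fintype.card_subtype_compl,
      Fintype.card_subtype_eq]
  have h3 : Nat.card (V ⊕ Fin N) = Fintype.card V + N := by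
    rw [Nat.card_eq_fintype_card, Fintype.card_sum, Fintype.card_fin]
  rw [Nat.card_sum, h3]
  omega

end Pool.Agent.Lib.MP_8b7544_co
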