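import Pool.Agent.Lib.MP_8b7544_co.Cases

set_option autoImplicit false

namespace Pool.Agent.Lib.MP_8b7544_co

open Finset

/-- Chain of siblings. -/
theorem ap_chain {V : Type} [DecidableEq V] {par : V → V} {τ : V → ℤ} {u : V} {b T : ℤ}
    (hb : 0 < b) (hτu : τ u = b) (e : ℕ → V) (k : ℕ) (he : Set.InjOn e (range k : Set ℕ))
    (hpar : ∀ i < k, par (e i) = u) (hτ : ∀ i < k, τ (e i) = T + i * b) :
    ∃ Z, IsChain par τ ((range k).image e) Z T (T + k * b) ∧ ∀ z ∈ Z, z = T ∨ T + b ≤ z := by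
  induction k with
  | zero =>
    refine ⟨{T}, ?_, by simp⟩
    simpa using IsChain.nil (par := par) (τ := τ) (T := T)
  | succ k ih =>
    obtain ⟨Z, hZ, hZ2⟩ := ih
      (fun i hi j hj h => he (by simp at hi ⊢; omega) (by simp at hj ⊢; omega) h)
      (fun i hi => hpar i (by omega)) (fun i hi => hτ i (by omega))
    have hpk := hpar k (by omega)
    have h1 := IsChain.single (par := par) (τ := τ) (x := e k) (T := T + k * b) (hτ k (by omega))
      (by rw [hpk, hτu]; exact hb)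
    rw [hpk, hτu] at h1
    have hd : Disjoint ((range k).image e) {e k} := by
      rw [Finset.disjoint_singleton_right, mem_image]
      rintro ⟨i, hi, h⟩
      rw [mem_range] at hi
      have := he (by simp; omega) (by simp) h
      omega
    have h2 := hZ.append h1 hd
    have e1 : (range (k + 1)).image e = (range k).image e ∪ {e k} := by
      rw [Finset.range_add_one, Finset.image_insert]
      ext z; simp
    have e2 : T + ((k + 1 : ℕ) : ℤ) * b = T + k * b + b := by push_cast; ring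
    rw [e1, e2]
    refine ⟨_, h2, ?_⟩
    intro z hz
    rcases mem_union.1 hz with hz | hz
    · exact hZ2 z hz
    · rw [mem_insert, mem_singleton] at hz
      have hkb : 0 ≤ (k : ℤ) * b := by positivity
      rcases hz with rfl | rfl
      · rcases Nat.eq_zero_or_pos k with hk | hk
        · left; rw [hk]; simp
        · right
          have : (1 : ℤ) ≤ k := by exact_mod_cast hk
          nlinarith
      · right; linarith

theorem part_c {V : Type} [Fintype V] (G : SimpleGraph V) (hG : G.IsTree) (v u : V)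
    (huv : G.Adj v u) (hne : ∃ x, G.Adj u x ∧ x ≠ v)
    (hleaf : ∀ x, G.Adj u x → x ≠ v → ∀ y, G.Adj x y → y = u) :
    ∃ N₁ : ℕ, ∀ N, N₁ ≤ N → EdgeMagic (attach G v N) := by
  classical
  obtain ⟨par, d, hpar, hpar2⟩ := exists_par G hG v
  have hV : 0 < Fintype.card V := Fintype.card_pos_iff.2 ⟨v⟩
  set n := Fintype.card V with hn
  have hu : u ≠ v := huv.ne.symm
  have hpu : par u = v := by
    rcases hpar2 u v huv.symm with ⟨_, h⟩ | ⟨h, _⟩
    · exact h
    · exact absurd rfl h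
  let S : Finset V := univ.filter (fun x => x ≠ v ∧ par x ≠ v)
  have hSmem : ∀ x, x ∈ S ↔ x ≠ v ∧ par x ≠ v := fun x => by simp [S]
  let L : Finset V := univ.filter (fun x => x ≠ v ∧ par x = u)
  have hLmem : ∀ x, x ∈ L ↔ x ≠ v ∧ par x = u := fun x => by simp [L]
  have hLS : L ⊆ S := by
    intro x hx
    have := (hLmem x).1 hx
    exact (hSmem x).2 ⟨this.1, by rw [this.2]; exact hu⟩
  -- children of `u`
  have hchild : ∀ x, G.Adj u x → x ≠ v → x ∈ L := by
    intro x hx hxv
    rcases hpar2 u x hx with ⟨_, h⟩ | ⟨h1, h2⟩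
    · exact absurd (h.symm.trans hpu) hxv
    · exact (hLmem x).2 ⟨hxv, h2⟩
  have hLne : 1 ≤ L.card := by
    obtain ⟨x, hx, hxv⟩ := hne
    exact Finset.card_pos.2 ⟨x, hchild x hx hxv⟩
  -- vertices of `L` have no children
  have hLleaf : ∀ y, y ≠ v → par y ∉ L := by
    intro y hy hL
    have h1 := (hLmem _).1 hL
    have h2 := (hpar y hy)
    have h3 : G.Adj u (par y) := by
      have := (hpar (par y) h1.1).1
      rw [h1.2] at this
      exact this.symm
    have h4 := hleaf (par y) h3 h1.1 y h2.1.symm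
    rw [h4, hpu] at h1
    exact h1.1 rfl
  let S' : Finset V := S \ L
  have hS'mem : ∀ x, x ∈ S' ↔ x ≠ v ∧ par x ≠ v ∧ par x ≠ u := by
    intro x
    rw [mem_sdiff, hSmem, hLmem]
    tauto
  have hι : ∃ ι : V → ℕ, Function.Injective ι ∧ ∀ x, ι x < n := by
    refine ⟨fun x => (Fintype.equivFin V x).val, ?_, fun x => (Fintype.equivFin V x).isLt⟩
    intro x y h
    exact (Fintype.equivFin V).injective (Fin.ext h)
  obtain ⟨ι, hιinj, hιlt⟩ := hι
  let β : V → ℤ := fun x => if x ≠ v ∧ par x = v then (ι x : ℤ) + 1 else 0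
  have hβ : ∀ x, 0 ≤ β x := by
    intro x
    simp only [β]
    split_ifs <;> positivity
  have hβA : ∀ x, β x ≤ (n : ℤ) := by
    intro x
    have := hιlt x
    simp only [β]
    split_ifs <;> omega
  have hβ1 : ∀ x, x ≠ v → par x = v → 1 ≤ β x := by
    intro x hx hx2
    simp only [β, hx, hx2, ne_eq, not_false_eq_true, and_self, if_true]
    omega
  have hβinj : ∀ x y, x ≠ v → par x = v → y ≠ v → par y = v → β x = β y → x = y := by
    intro x y hx hx2 hy hy2 h
    simp only [β, hx, hx2, hy, hy2, ne_eq, not_false_eq_true, and_self, if_true] at h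
    exact hιinj (by omega)
  have hout : ∀ x ∈ S', par x ∉ S' → par x ≠ v ∧ par (par x) = v ∧ par x ≠ u := by
    intro x hx hpx
    have hx' := (hS'mem x).1 hx
    refine ⟨hx'.2.1, ?_, hx'.2.2⟩
    by_contra h
    refine hpx ((hS'mem _).2 ⟨hx'.2.1, h, ?_⟩)
    intro h2
    exact hLleaf x hx'.1 ((hLmem _).2 ⟨hx'.2.1, h2⟩)
  obtain ⟨γ, Z, Y, c1, c2, c3, c4, c5, c5', c6, c7, c8⟩ :=
    forms par d β hβ S'.card S' rfl (fun x hx => (hpar x ((hS'mem x).1 hx).1).2)
      (fun x hx hpx => hβ1 _ (hout x hx hpx).1 (hout x hx hpx).2.1)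
  have hZ0 : (1, 0) ∈ Z := by
    by_contra h
    have hsub : Z ⊆ S'.image (fun x => γ x + γ (par x)) := by
      intro z hz
      rcases c7 z hz with rfl | ⟨x, hx, hx2⟩
      · exact absurd hz h
      · exact mem_image.2 ⟨x, hx, hx2⟩
    have h1 := Finset.card_le_card hsub
    have h2 : (S'.image (fun x => γ x + γ (par x))).card ≤ S'.card := Finset.card_image_le
    omega
  obtain ⟨ξ, hξe⟩ : ∃ ξ, ξ = Y.1 := ⟨_, rfl⟩
  obtain ⟨κ, hκe⟩ : ∃ κ, κ = Y.2 := ⟨_, rfl⟩
  have hξ : 1 ≤ ξ := by rw [hξe]; exact (c5 Y c4).1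
  have hκ : 0 ≤ κ := by rw [hκe]; exact (c5 Y c4).2.1
  -- power of two
  obtain ⟨m, hm⟩ : ∃ m, m = L.card := ⟨_, rfl⟩
  rw [← hm] at hLne
  obtain ⟨j, hj1, hj2⟩ : ∃ j : ℕ, m ≤ 2 ^ j ∧ 2 ^ j < 2 * m := by
    refine ⟨Nat.clog 2 m, Nat.le_pow_clog (by norm_num) m, ?_⟩
    rcases Nat.lt_or_ge 1 m with h | h
    · have h1 := Nat.pow_pred_clog_lt_self (b := 2) (by norm_num) h
      have h2 : 0 < Nat.clog 2 m := Nat.clog_pos (by norm_num) h
      obtain ⟨c, hc⟩ : ∃ c, Nat.clog 2 m = c + 1 := ⟨Nat.clog 2 m - 1, by omega⟩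
      rw [hc] at h1 ⊢
      simp only [Nat.pred_eq_sub_one, Nat.add_sub_cancel] at h1
      rw [pow_succ]
      omega
    · have : m = 1 := by omega
      rw [this]
      simp
  obtain ⟨r, hr⟩ : ∃ r, r + 2 ^ j = 2 * m := ⟨2 * m - 2 ^ j, by omega⟩
  have hr1 : 1 ≤ r := by omega
  have hrm : r ≤ m := by omega
  obtain ⟨q, hq⟩ : ∃ q : ℤ, q = r * ξ + (m - r) := ⟨_, rfl⟩
  have hr1' : (1 : ℤ) ≤ r := by exact_mod_cast hr1
  have hrm' : (r : ℤ) ≤ m := by exact_mod_cast hrm
  have hq1 : 1 ≤ q := by rw [hq]; nlinarith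
  have hcop : (Int.gcd (2 * ξ - 1) q : ℤ) ∣ 1 := by
    have h1 : (Int.gcd (2 * ξ - 1) q : ℤ) ∣ 2 * ξ - 1 := Int.gcd_dvd_left _ _
    have h2 : (Int.gcd (2 * ξ - 1) q : ℤ) ∣ q := Int.gcd_dvd_right _ _
    have hodd : Odd (Int.gcd (2 * ξ - 1) q) := by
      have h2 : Odd (2 * ξ - 1) := ⟨ξ - 1, by ring⟩
      obtain ⟨c, hc⟩ := h1
      rw [hc] at h2
      have := (Int.odd_mul.1 h2).1
      exact_mod_cast this
    have h3 : (Int.gcd (2 * ξ - 1) q : ℤ) ∣ ((2 ^ j : ℕ) : ℤ) := by
      have h4 : ((2 ^ j : ℕ) : ℤ) = 2 * q - r * (2 * ξ - 1) := by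
        have : (r : ℤ) + ((2 ^ j : ℕ) : ℤ) = 2 * m := by exact_mod_cast hr
        rw [hq]
        linarith
      rw [h4]
      exact dvd_sub (dvd_mul_of_dvd_right h2 _) (dvd_mul_of_dvd_right h1 _)
    have h5 : Int.gcd (2 * ξ - 1) q ∣ 2 ^ j := by exact_mod_cast h3
    have h6 : Nat.Coprime (Int.gcd (2 * ξ - 1) q) (2 ^ j) :=
      Nat.Coprime.pow_right j hodd.coprime_two_right
    have h7 := Nat.Coprime.eq_one_of_dvd h6 h5
    rw [h7]
    simp
  obtain ⟨J, hJ⟩ : ∃ J : ℤ, J = 2 * q + 3 := ⟨_, rfl⟩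
  obtain ⟨B0, hB0⟩ : ∃ B0 : ℤ, B0 = J * (n + 1) + 1 := ⟨_, rfl⟩
  refine ⟨(ξ + κ * J + (2 * ξ - 1) * q + q * B0).toNat, ?_⟩
  intro N hN
  have hPlarge : ξ + κ * J + (2 * ξ - 1) * q + q * B0 ≤ (N : ℤ) := by
    have := Int.self_le_toNat (ξ + κ * J + (2 * ξ - 1) * q + q * B0)
    have h2 : (((ξ + κ * J + (2 * ξ - 1) * q + q * B0).toNat : ℕ) : ℤ) ≤ N := by
      exact_mod_cast hN
    linarith
  obtain ⟨P, hPdef⟩ : ∃ P : ℤ, P = ((n - 1 + N : ℕ) : ℤ) := ⟨_, rfl⟩
  have hPn : P = (n : ℤ) - 1 + N := by rw [hPdef]; omega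
  obtain ⟨C, hC1, hC2, b, hb⟩ := solve_mod (2 * ξ - 1) q (P - (ξ - 1) - κ * J) hq1
    (hcop.trans (one_dvd _))
  have hblarge : B0 ≤ b := by
    have h1 : q * b = P - (ξ - 1) - κ * J - (2 * ξ - 1) * C := by linarith
    have h2 : (2 * ξ - 1) * C ≤ (2 * ξ - 1) * q := by nlinarith
    have h3 : q * B0 ≤ q * b := by
      rw [h1]
      linarith
    exact le_of_mul_le_mul_left h3 (by linarith)
  have hJpos : 0 < J := by linarith
  have hJn : 0 ≤ J * n := by positivity
  have hbJ : J * n + J + 1 ≤ b := by rw [hB0] at hblarge; linarith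
  have hbpos : 0 < b := by linarith
  obtain ⟨T, hT⟩ : ∃ T : ℤ, T = 2 * C + 1 + r * b := ⟨_, rfl⟩
  have hrb : b ≤ r * b := by nlinarith
  have hTpos : 0 < T := by linarith
  obtain ⟨E, hE⟩ : ∃ E : ℤ, E = ξ * T + κ * J := ⟨_, rfl⟩
  have hTE : T ≤ E := by rw [hE]; nlinarith
  -- enumeration of `L`
  let eL := L.equivFinOfCardEq hm.symm
  let e : ℕ → V := fun i => if h : i < m then (eL.symm ⟨i, h⟩).1 else v
  have heL : ∀ i < m, e i ∈ L := by
    intro i hi
    simp only [e, dif_pos hi]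
    exact (eL.symm ⟨i, hi⟩).2
  have heinj : Set.InjOn e (range m : Set ℕ) := by
    intro i hi i' hi' h
    simp only [coe_range, Set.mem_Iio] at hi hi'
    simp only [e, dif_pos hi, dif_pos hi'] at h
    have := eL.symm.injective (Subtype.ext h)
    simpa using this
  have hesurj : ∀ x ∈ L, ∃ i < m, e i = x := by
    intro x hx
    refine ⟨(eL ⟨x, hx⟩).val, (eL ⟨x, hx⟩).isLt, ?_⟩
    simp only [e, dif_pos (eL ⟨x, hx⟩).isLt]
    simp
  let pos : V → ℕ := fun x => if h : x ∈ L then (eL ⟨x, h⟩).val else 0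
  have hpos : ∀ i < m, pos (e i) = i := by
    intro i hi
    have h1 := heL i hi
    simp only [pos, dif_pos h1]
    have : (⟨e i, h1⟩ : {x // x ∈ L}) = eL.symm ⟨i, hi⟩ := by
      apply Subtype.ext
      simp only [e, dif_pos hi]
    rw [this]
    simp
  let τ : V → ℤ := fun x =>
    if x ≠ v ∧ par x = v then (if x = u then b else β x * J)
    else if x ∈ L then (if pos x < r then 2 * C + 1 + pos x * b else E + ((pos x : ℤ) - r) * b)
    else (γ x).1 * T + (γ x).2 * J
  have hτu : τ u = b := by simp [τ, hu, hpu]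
  have hτB : ∀ x, x ≠ v → par x = v → x ≠ u → τ x = β x * J := by
    intro x h1 h2 h3
    simp only [τ, h1, h2, h3, ne_eq, not_false_eq_true, and_self, if_true, if_false]
  have hLB : ∀ x ∈ L, ¬ (x ≠ v ∧ par x = v) := by
    intro x hx h
    exact ((hSmem x).1 (hLS hx)).2 h.2
  have hτL1 : ∀ i < m, i < r → τ (e i) = 2 * C + 1 + i * b := by
    intro i hi hir
    simp only [τ, if_neg (hLB _ (heL i hi)), if_pos (heL i hi), hpos i hi, if_pos hir]
  have hτL2 : ∀ i < m, ¬ i < r → τ (e i) = E + ((i : ℤ) - r) * b := by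
    intro i hi hir
    simp only [τ, if_neg (hLB _ (heL i hi)), if_pos (heL i hi), hpos i hi, if_neg hir]
  have hτS : ∀ x ∈ S', τ x = (γ x).1 * T + (γ x).2 * J := by
    intro x hx
    have h1 := (hS'mem x).1 hx
    have h2 : x ∉ L := fun h => h1.2.2 ((hLmem x).1 h).2
    simp only [τ, h1.2.1, and_false, if_false, h2]
  have hch1 := ap_chain (par := par) (τ := τ) (u := u) (b := b) (T := 2 * C + 1) hbpos hτu e r
    (fun i hi j hj h => heinj (by simp at hi ⊢; omega) (by simp at hj ⊢; omega) h)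
    (fun i hi => ((hLmem _).1 (heL i (by omega))).2) (fun i hi => hτL1 i (by omega) hi)
  obtain ⟨Z1, hZ1, hZ1'⟩ := hch1
  rw [← hT] at hZ1
  have hch2 := isChain_of_forms (par := par) (S := S') rfl c3 c4 c5 c5' hZ0 c6 c7 hTpos hJpos
    (τ := τ) (by
      intro x hx
      refine ⟨hτS x hx, ?_⟩
      by_cases hp : par x ∈ S'
      · exact hτS _ hp
      · have h1 := hout x hx hp
        rw [hτB _ h1.1 h1.2.1 h1.2.2, c1 _ hp]
        simp)
  rw [← hξe, ← hκe, ← hE] at hch2
  have hch3 := ap_chain (par := par) (τ := τ) (u := u) (b := b) (T := E) hbpos hτu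
    (fun i => e (r + i)) (m - r)
    (fun i hi j hj h => by
      have := heinj (by simp at hi ⊢; omega) (by simp at hj ⊢; omega) h
      omega)
    (fun i hi => ((hLmem _).1 (heL (r + i) (by omega))).2)
    (fun i hi => by
      rw [hτL2 (r + i) (by omega) (by omega)]
      push_cast
      ring)
  obtain ⟨Z3, hZ3, hZ3'⟩ := hch3
  have hd1 : Disjoint ((range r).image e) S' := by
    rw [Finset.disjoint_left]
    intro x hx hx2
    rw [mem_image] at hx
    obtain ⟨i, hi, rfl⟩ := hx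
    rw [mem_range] at hi
    exact ((hS'mem _).1 hx2).2.2 ((hLmem _).1 (heL i (by omega))).2
  have hch12 := hZ1.append hch2 hd1
  have hd2 : Disjoint ((range r).image e ∪ S') ((range (m - r)).image (fun i => e (r + i))) := by
    rw [Finset.disjoint_left]
    intro x hx hx2
    rw [mem_image] at hx2
    obtain ⟨i, hi, rfl⟩ := hx2
    rw [mem_range] at hi
    rcases mem_union.1 hx with hx | hx
    · rw [mem_image] at hx
      obtain ⟨i', hi', h⟩ := hx
      rw [mem_range] at hi'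
      have := heinj (by simp; omega) (by simp; omega) h
      omega
    · exact ((hS'mem _).1 hx).2.2 ((hLmem _).1 (heL (r + i) (by omega))).2
  have hch := hch12.append hZ3 hd2
  have hSeq : (range r).image e ∪ S' ∪ (range (m - r)).image (fun i => e (r + i)) = S := by
    ext x
    rw [mem_union, mem_union, mem_image, mem_image]
    constructor
    · rintro ((⟨i, hi, rfl⟩ | h) | ⟨i, hi, rfl⟩)
      · rw [mem_range] at hi
        exact hLS (heL i (by omega))
      · exact (mem_sdiff.1 h).1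
      · rw [mem_range] at hi
        exact hLS (heL (r + i) (by omega))
    · intro hx
      by_cases hL : x ∈ L
      · obtain ⟨i, hi, rfl⟩ := hesurj x hL
        by_cases hir : i < r
        · left; left
          exact ⟨i, mem_range.2 hir, rfl⟩
        · right
          exact ⟨i - r, mem_range.2 (by omega), by rw [Nat.add_sub_cancel' (by omega)]⟩
      · left; right
        exact mem_sdiff.2 ⟨hx, hL⟩
  rw [hSeq] at hch
  have hmr : ((m - r : ℕ) : ℤ) = m - r := by omega
  rw [hmr] at hch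
  have hmrb : 0 ≤ ((m : ℤ) - r) * b := mul_nonneg (by linarith) hbpos.le
  have hbig : ∀ z ∈ Z1 ∪ Z.image (fun z => z.1 * T + z.2 * J) ∪ Z3,
      z = 2 * C + 1 ∨ 2 * C + 1 + b ≤ z := by
    intro z hz
    rcases mem_union.1 hz with hz | hz
    · rcases mem_union.1 hz with hz | hz
      · exact hZ1' z hz
      · right
        have := (hch2.2.2.2.1 z hz).1
        linarith
    · right
      have := (hZ3.2.2.2.1 z hz).1
      linarith
  refine assemble_one G v N par (fun x hx => (hpar x hx).1) hpar2 C hC1 τ _ _ hch ?_ ?_ ?_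
  · intro x y hx hx2 hy hy2 h
    by_cases hxu : x = u
    · by_cases hyu : y = u
      · rw [hxu, hyu]
      · exfalso
        rw [hxu, hτu, hτB y hy hy2 hyu] at h
        have := hβA y
        nlinarith
    · by_cases hyu : y = u
      · exfalso
        rw [hyu, hτu, hτB x hx hx2 hxu] at h
        have := hβA x
        nlinarith
      · rw [hτB x hx hx2 hxu, hτB y hy hy2 hyu] at h
        exact hβinj x y hx hx2 hy hy2 (mul_right_cancel₀ hJpos.ne' h)
  · intro x hx hx2
    by_cases hxu : x = u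
    · rw [hxu, hτu]
      refine ⟨by linarith, by linarith, ?_⟩
      intro hmem
      rcases hbig b hmem with h | h <;> linarith
    · rw [hτB x hx hx2 hxu]
      have h1 := hβ1 x hx hx2
      have h2 := hβA x
      have h3 : β x * J ≤ n * J := mul_le_mul_of_nonneg_right h2 hJpos.le
      have h4 : 1 * J ≤ β x * J := mul_le_mul_of_nonneg_right h1 hJpos.le
      refine ⟨by linarith, by linarith, ?_⟩
      intro hmem
      rcases hbig _ hmem with h | h <;> linarith
  · rw [← hPdef, hE, hT]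
    have h1 : q * b = P - (ξ - 1) - κ * J - (2 * ξ - 1) * C := by linarith
    rw [hq] at h1
    linarith

end Pool.Agent.Lib.MP_8b7544_co
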